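import Pool.Agent.W558.S2.CI

set_option autoImplicit false
set_option linter.unusedVariables false
set_option linter.unusedSimpArgs false
set_option linter.unusedSectionVars false

universe u

open MvPolynomial

namespace Pool.Agent.W418.LCI

open Pool.Agent.W558

/-- The data of a complete intersection of sums of products of linear forms. -/
structure LData (E : Type u) [Field E] (p N n r : ℕ) where
  /-- the linear forms -/
  Λ : Type
  finΛ : Fintype Λ
  /-- the coefficients of the linear forms -/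
  v : Λ → Fin N → E
  /-- the blocks of the linear forms -/
  bl : Λ → Fin n
  /-- the blocks of the variables -/
  blk : Fin N → Fin n
  /-- the indices of the terms -/
  ι : Fin r → Type
  fin : ∀ j, Fintype (ι j)
  /-- the indices of the functions on the base -/
  H : Type
  finH : Fintype H
  /-- the functions on the base -/
  h : H → E
  /-- the first term -/
  i0 : ∀ j, ι j
  /-- the coefficients -/
  c : ∀ j, ι j → H
  /-- the exponents of the linear forms -/
  a : ∀ j, ι j → Λ → ℕ
  /-- the exponents of the polynomials -/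
  e : ∀ j, ι j → Fin r → ℕ
  /-- the polynomials -/
  f : Fin r → MvPolynomial (Fin N) E
  /-- the degrees of the polynomials -/
  deg : Fin r → Fin n → ZMod p
  /-- the equations -/
  J : Set (Fin r)

namespace LData

variable {k E : Type u} [Field k] [Field E] [Algebra k E] {p : ℕ} {N n r : ℕ}
  (S : LData E p N n r)

instance : Fintype S.Λ := S.finΛ
instance (j : Fin r) : Fintype (S.ι j) := S.fin j
instance : Fintype S.H := S.finH

/-- The linear forms. -/
noncomputable def lin (q : S.Λ) : MvPolynomial (Fin N) E := ∑ i, C (S.v q i) * X i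

/-- The terms without coefficients. -/
noncomputable def m (j : Fin r) (i : S.ι j) : MvPolynomial (Fin N) E :=
  (∏ q, S.lin q ^ S.a j i q) * ∏ l, S.f l ^ S.e j i l

/-- The terms. -/
noncomputable def tm (j : Fin r) (i : S.ι j) : MvPolynomial (Fin N) E :=
  C (S.h (S.c j i)) * S.m j i

open Classical in
/-- The degrees of the terms. -/
noncomputable def w (j : Fin r) (i : S.ι j) (s : Fin n) : ZMod p :=
  (∑ q, if S.bl q = s then (S.a j i q : ZMod p) else 0) + ∑ l, S.e j i l * S.deg l s

/-- The differences of the degrees. -/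
noncomputable def dv (q : Σ j, {i : S.ι j // i ≠ S.i0 j}) (s : Fin n) : ZMod p :=
  S.w q.1 q.2 s - S.deg q.1 s

/-- The conditions. -/
structure Ok : Prop where
  h0 : ∀ t, S.h t ≠ 0
  hv0 : ∀ q, S.v q ≠ 0
  hvb : ∀ q i, S.v q i ≠ 0 → S.blk i = S.bl q
  e0 : ∀ j i l, (j ≤ l ∨ l ∈ S.J) → S.e j i l = 0
  hf : ∀ j, S.f j = ∑ i, S.tm j i
  hdeg : ∀ j s, S.deg j s = S.w j (S.i0 j) s
  ind : LinearIndependent (ZMod p) S.dv

variable {S} [Fact p.Prime] [CharP k p]

/-- The derivation with given weights of the coordinates. -/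
noncomputable def dl (k : Type u) {E : Type u} [Field k] [Field E] [Algebra k E] {p : ℕ}
    [Fact p.Prime] [CharP k p] {N n : ℕ} (blk : Fin N → Fin n) (b : Fin n → ZMod p) :
    Derivation k (MvPolynomial (Fin N) E) (MvPolynomial (Fin N) E) :=
  (mkDerivation E fun i => ZMod.castHom (dvd_refl p) k (b (blk i)) •
    (X i : MvPolynomial (Fin N) E)).restrictScalars k

lemma dl_C (blk : Fin N → Fin n) (b : Fin n → ZMod p) (x : E) :
    dl k (E := E) blk b (C x) = 0 := by
  change mkDerivation E _ (algebraMap E (MvPolynomial (Fin N) E) x) = 0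
  rw [Derivation.map_algebraMap]

lemma dl_X (blk : Fin N → Fin n) (b : Fin n → ZMod p) (i : Fin N) :
    dl k (E := E) blk b (X i) = ZMod.castHom (dvd_refl p) k (b (blk i)) •
      (X i : MvPolynomial (Fin N) E) := by
  change mkDerivation E _ (X i) = _
  rw [mkDerivation_X]

lemma dl_lin (hvb : ∀ q i, S.v q i ≠ 0 → S.blk i = S.bl q) (b : Fin n → ZMod p) (q : S.Λ) :
    dl k (E := E) S.blk b (S.lin q) = ZMod.castHom (dvd_refl p) k (b (S.bl q)) • S.lin q := by
  unfold lin
  rw [map_sum, Finset.smul_sum]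
  refine Finset.sum_congr rfl fun i _ => ?_
  rw [Derivation.leibniz, dl_C, smul_zero, add_zero, dl_X]
  by_cases h : S.v q i = 0
  · rw [h, C_0, zero_smul, zero_mul, smul_zero]
  · rw [hvb q i h, smul_eq_mul, mul_smul_comm]

lemma pr_add_sub (b : Fin n → ZMod p) (q : Σ j, {i : S.ι j // i ≠ S.i0 j}) :
    TowerData.pr b (S.w q.1 q.2) = TowerData.pr b (S.deg q.1) + TowerData.pr b (S.dv q) := by
  unfold TowerData.pr
  rw [← Finset.sum_add_distrib]
  refine Finset.sum_congr rfl fun s _ => ?_
  rw [dv]; ring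

lemma pr_w' (b : Fin n → ZMod p) (j : Fin r) (i : S.ι j) :
    TowerData.pr b (S.w j i) = ∑ q, (S.a j i q : ZMod p) * b (S.bl q) +
      ∑ l, (S.e j i l : ZMod p) * TowerData.pr b (S.deg l) := by
  classical
  unfold TowerData.pr w
  have h1 : ∑ l, (S.e j i l : ZMod p) * ∑ s, b s * S.deg l s =
      ∑ s, b s * ∑ l, (S.e j i l : ZMod p) * S.deg l s := by
    simp only [Finset.mul_sum]
    rw [Finset.sum_comm]
    refine Finset.sum_congr rfl fun s _ => Finset.sum_congr rfl fun l _ => ?_
    ring
  have h2 : ∑ q, (S.a j i q : ZMod p) * b (S.bl q) =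
      ∑ s, b s * ∑ q, if S.bl q = s then (S.a j i q : ZMod p) else 0 := by
    simp only [Finset.mul_sum]
    rw [Finset.sum_comm]
    refine Finset.sum_congr rfl fun q _ => ?_
    rw [Finset.sum_eq_single (S.bl q)]
    · rw [if_pos rfl]; ring
    · intro s _ hs
      rw [if_neg (Ne.symm hs), mul_zero]
    · intro h; exact absurd (Finset.mem_univ _) h
  rw [h1, h2, ← Finset.sum_add_distrib]
  refine Finset.sum_congr rfl fun s _ => ?_
  rw [mul_add]

variable (hS : S.Ok)

include hS

lemma pr_w (b : Fin n → ZMod p) (j : Fin r) (h : ∀ q, q.1 = j → TowerData.pr b (S.dv q) = 0)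
    (i : S.ι j) : TowerData.pr b (S.w j i) = TowerData.pr b (S.deg j) := by
  by_cases hi : i = S.i0 j
  · unfold TowerData.pr
    rw [hi]
    exact Finset.sum_congr rfl fun s _ => by rw [hS.hdeg]
  · have h1 := pr_add_sub b ⟨j, i, hi⟩
    rw [h ⟨j, i, hi⟩ rfl, add_zero] at h1
    exact h1

/-- The weights of the polynomials and the terms. -/
lemma weights (b : Fin n → ZMod p) :
    ∀ (M : ℕ) (j : Fin r), j.val = M → (∀ q, q.1 < j → TowerData.pr b (S.dv q) = 0) →
      (∀ i, dl k S.blk b (S.tm j i) = ZMod.castHom (dvd_refl p) k (TowerData.pr b (S.w j i)) •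
        S.tm j i) ∧
      ((∀ q, q.1 = j → TowerData.pr b (S.dv q) = 0) → dl k S.blk b (S.f j) =
        ZMod.castHom (dvd_refl p) k (TowerData.pr b (S.deg j)) • S.f j) := by
  intro M
  induction M using Nat.strong_induction_on with
  | _ M ih =>
    intro j hj hq
    have h1 : ∀ i, dl k S.blk b (S.tm j i) = ZMod.castHom (dvd_refl p) k
        (TowerData.pr b (S.w j i)) • S.tm j i := by
      intro i
      have h2 : dl k S.blk b (C (S.h (S.c j i))) = (0 : k) • C (S.h (S.c j i)) := by
        rw [dl_C, zero_smul]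
      have h3 := eig_prod (dl k S.blk b) Finset.univ S.lin
        (fun q => ZMod.castHom (dvd_refl p) k (b (S.bl q))) (S.a j i)
        (fun q _ _ => dl_lin hS.hvb b q)
      have h4 := eig_prod (dl k S.blk b) Finset.univ (fun l => S.f l)
        (fun l => ZMod.castHom (dvd_refl p) k (TowerData.pr b (S.deg l))) (S.e j i) (by
          intro l _ hl
          have hlj : l < j := by
            by_contra hcon
            exact hl (hS.e0 j i l (Or.inl (not_lt.1 hcon)))
          refine (ih l.val (by rw [← hj]; exact hlj) l rfl ?_).2 ?_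
          · intro q hq'
            exact hq q (hq'.trans hlj)
          · intro q hq'
            exact hq q (by rw [hq']; exact hlj))
      have h5 := eig_mul (dl k S.blk b) h2 (eig_mul (dl k S.blk b) h3 h4)
      refine h5.trans ?_
      congr 1
      rw [zero_add, pr_w', map_add, map_sum, map_sum]
      congr 1
      · exact Finset.sum_congr rfl fun s _ => by rw [map_mul, map_natCast]
      · exact Finset.sum_congr rfl fun s _ => by rw [map_mul, map_natCast]
    refine ⟨h1, ?_⟩
    intro hq'
    rw [hS.hf j, map_sum, Finset.smul_sum]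
    refine Finset.sum_congr rfl fun i _ => ?_
    rw [h1 i, pr_w hS b j hq' i]

omit hS in
/-- The functions of a stage. -/
noncomputable def gL (S : LData E p N n r) {L : Type u} [Field L] [Algebra k L]
    (ψ : MvPolynomial (Fin N) E →ₐ[k] L) (j : ℕ) : S.H ⊕ (S.Λ ⊕ Fin r) → L :=
  open Classical in
  Sum.elim (fun t => ψ (C (S.h t))) (Sum.elim (fun q => ψ (S.lin q))
    (fun l => if l.val < j ∧ l ∉ S.J then ψ (S.f l) else 1))

omit hS in
/-- The denominators of a stage. -/
noncomputable def Dn (S : LData E p N n r) (j : ℕ) : Submonoid (MvPolynomial (Fin N) E) :=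
  Submonoid.closure ({x | ∃ b : E, b ≠ 0 ∧ x = C b} ∪ Set.range S.lin ∪
    {x | ∃ l : Fin r, l.val < j ∧ l ∉ S.J ∧ x = S.f l})

omit hS in
/-- The logarithmic derivations of a stage. -/
def DsL (S : LData E p N n r) {L : Type u} [Field L] [Algebra k L]
    (ψ : MvPolynomial (Fin N) E →ₐ[k] L) (j : ℕ) : Set (Derivation k L L) :=
  {D | ∃ b : Fin n → ZMod p, (∀ q, q.1.val < j → TowerData.pr b (S.dv q) = 0) ∧
    ∀ a, D (ψ a) = ψ (dl k S.blk b a)}

omit hS in
/-- The exponents of the terms. -/
noncomputable def ej (S : LData E p N n r) (j : Fin r) (i : S.ι j) :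
    S.H ⊕ (S.Λ ⊕ Fin r) → ℤ :=
  open Classical in
  Sum.elim (fun t => if t = S.c j i then 1 else 0)
    (Sum.elim (fun q => S.a j i q) fun l => S.e j i l)

lemma psi_tm {L : Type u} [Field L] [Algebra k L] (ψ : MvPolynomial (Fin N) E →ₐ[k] L)
    (j : Fin r) (i : S.ι j) : ψ (S.tm j i) = ∏ x, gL S ψ j x ^ ej S j i x := by
  classical
  rw [tm, m, map_mul, map_mul, map_prod, map_prod, Fintype.prod_sum_type, Fintype.prod_sum_type]
  congr 1
  · rw [Finset.prod_eq_single (S.c j i)]
    · simp [gL, ej]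
    · intro t _ ht
      simp [gL, ej, ht]
    · intro h; exact absurd (Finset.mem_univ _) h
  · congr 1
    · refine Finset.prod_congr rfl fun s _ => ?_
      simp [gL, ej]
    · refine Finset.prod_congr rfl fun l _ => ?_
      by_cases hl : l.val < j.val ∧ l ∉ S.J
      · have e1 : gL S ψ j (Sum.inr (Sum.inr l)) = ψ (S.f l) := if_pos hl
        have e2 : ej S j i (Sum.inr (Sum.inr l)) = (S.e j i l : ℤ) := rfl
        rw [e1, e2, zpow_natCast, map_pow]
      · have h0 : S.e j i l = 0 := by
          apply hS.e0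
          by_cases h1 : l.val < j.val
          · right
            by_contra h2
            exact hl ⟨h1, h2⟩
          · left
            rw [Fin.le_def]
            omega
        simp [gL, ej, h0]

lemma psi_f {L : Type u} [Field L] [Algebra k L] (ψ : MvPolynomial (Fin N) E →ₐ[k] L)
    (j : Fin r) : ψ (S.f j) = ∑ i, (1 : k) • ∏ x, gL S ψ j x ^ ej S j i x := by
  rw [hS.hf j, map_sum]
  refine Finset.sum_congr rfl fun i _ => ?_
  rw [one_smul, psi_tm hS]

/-- The separation of the terms. -/
lemma sep_j {L : Type u} [Field L] [Algebra k L] (ψ : MvPolynomial (Fin N) E →ₐ[k] L)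
    (hL : ∀ x : L, ∃ a b, ψ b ≠ 0 ∧ x * ψ b = ψ a) (j : Fin r)
    (hker : ∀ b : Fin n → ZMod p, (∀ q, q.1.val < j.val → TowerData.pr b (S.dv q) = 0) →
      ∀ a, ψ a = 0 → ψ (dl k S.blk b a) = 0) :
    SepD (DsL S ψ j.val) (fun i => ∏ x, gL S ψ j x ^ ej S j i x) := by
  classical
  intro i
  -- the target values
  let t : (Σ j, {i : S.ι j // i ≠ S.i0 j}) → ZMod p := fun q =>
    if q.1 = j then (if i = S.i0 j then -1 else if HEq q.2.1 i then 1 else 0) else 0
  obtain ⟨b, hb⟩ := exists_dual hS.ind t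
  have hb' : ∀ q, TowerData.pr b (S.dv q) = t q := hb
  have hlt : ∀ q : (Σ j, {i : S.ι j // i ≠ S.i0 j}), q.1 < j → TowerData.pr b (S.dv q) = 0 := by
    intro q hq
    rw [hb']
    exact if_neg hq.ne
  obtain ⟨D, hD⟩ := exists_der_L ψ hL (dl k S.blk b) (hker b hlt)
  have hw0 := (weights (k := k) hS b j.val j rfl hlt).1
  have hw : ∀ i', D (ψ (S.tm j i')) = ZMod.castHom (dvd_refl p) k
      (TowerData.pr b (S.w j i')) • ψ (S.tm j i') := by
    intro i'
    rw [hD, hw0, map_smul]
  refine ⟨D, ⟨b, hlt, hD⟩, ?_⟩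
  have hval : ∀ i', i' ≠ S.i0 j → TowerData.pr b (S.w j i') = TowerData.pr b (S.deg j) +
      (if i = S.i0 j then -1 else if i' = i then 1 else 0) := by
    intro i' hi'
    have h1 := pr_add_sub b ⟨j, i', hi'⟩
    rw [hb'] at h1
    refine h1.trans ?_
    congr 1
    simp only [t, if_true]
    by_cases h2 : i = S.i0 j
    · rw [if_pos h2, if_pos h2]
    · rw [if_neg h2, if_neg h2]
      by_cases h3 : i' = i
      · rw [if_pos (heq_of_eq h3), if_pos h3]
      · rw [if_neg (fun h => h3 (eq_of_heq h)), if_neg h3]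
  have hval0 : TowerData.pr b (S.w j (S.i0 j)) = TowerData.pr b (S.deg j) := by
    unfold TowerData.pr
    exact Finset.sum_congr rfl fun s _ => by rw [hS.hdeg]
  simp only [← psi_tm hS]
  by_cases hi : i = S.i0 j
  · refine ⟨ZMod.castHom (dvd_refl p) k (TowerData.pr b (S.deg j)) - 1, ?_, ?_⟩
    · rw [hw, hi, hval0, sub_add_cancel]
    · intro i' hi'
      rw [hw, hval i' (by rw [← hi]; exact hi'), if_pos hi, map_add, map_neg, map_one,
        sub_eq_add_neg]
  · refine ⟨ZMod.castHom (dvd_refl p) k (TowerData.pr b (S.deg j)), ?_, ?_⟩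
    · rw [hw, hval i hi, if_neg hi, if_pos rfl, map_add, map_one]
    · intro i' hi'
      by_cases h0 : i' = S.i0 j
      · rw [hw, h0, hval0]
      · rw [hw, hval i' h0, if_neg hi, if_neg hi', add_zero]

/-- The invariant of the induction. -/
def Inv (k : Type u) [Field k] [Algebra k E] [CharP k p] (S : LData E p N n r) (j : ℕ) : Prop :=
  ∀ (L : Type u) [Field L] [Algebra k L] (ψ : MvPolynomial (Fin N) E →ₐ[k] L),
    (∀ x : L, ∃ a b, ψ b ≠ 0 ∧ x * ψ b = ψ a) →
    RingHom.ker ψ.toRingHom ∈ (Ideal.span (S.f '' {l | l.val < j ∧ l ∈ S.J})).minimalPrimes →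
    (∀ s ∈ Dn S j, ψ s ≠ 0) →
    Sta (gL S ψ j) (QS ψ (Dn S j)) (DsL S ψ j) ∧
      ∀ b : Fin n → ZMod p, (∀ q, q.1.val < j → TowerData.pr b (S.dv q) = 0) →
        ∀ a, ψ a = 0 → ψ (dl k S.blk b a) = 0

end LData

end Pool.Agent.W418.LCI
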