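import Pool.Agent.W418.LCI.Base

set_option autoImplicit false
set_option linter.unusedVariables false
set_option linter.unusedSimpArgs false
set_option linter.unusedSectionVars false

universe u

open MvPolynomial

namespace Pool.Agent.W418.LCI

open Pool.Agent.W558 Pool.Agent.W418.Lin

/-- The transcendence degree decreases under homomorphisms of domains which are not injective. -/
theorem trdeg_lt {E A B : Type u} [Field E] [CommRing A] [IsDomain A] [Algebra E A] [CommRing B]
    [IsDomain B] [Algebra E B] (φ : A →ₐ[E] B)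
    (hB : Algebra.IsAlgebraic (Algebra.adjoin E (Set.range φ)) B)
    (hA : Algebra.trdeg E A < Cardinal.aleph0) {b : A} (hb : b ≠ 0) (hφb : φ b = 0) :
    Algebra.trdeg E B < Algebra.trdeg E A := by
  by_contra hcon
  rw [not_lt] at hcon
  obtain ⟨t, ht, htb⟩ := exists_isTranscendenceBasis_subset (R := E) (A := B) (Set.range φ)
  choose a ha using fun y : t => ht y.2
  have h1 : Cardinal.mk t = Algebra.trdeg E B := htb.cardinalMk_eq_trdeg
  have h2 : AlgebraicIndependent E a := by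
    apply AlgebraicIndependent.of_comp φ
    have h3 : φ ∘ a = ((↑) : t → B) := funext ha
    rw [h3]
    exact htb.1
  have h3 : IsTranscendenceBasis E a := h2.isTranscendenceBasis_of_trdeg_le hA (by rw [h1]; exact hcon)
  have h4 : Algebra.IsAlgebraic (Algebra.adjoin E (Set.range a)) A := h3.isAlgebraic
  have h5 := Ideal.comap_ne_bot_of_algebraic_mem (R := Algebra.adjoin E (Set.range a)) (S := A)
    (I := RingHom.ker φ.toRingHom) hb (RingHom.mem_ker.2 hφb) (h4.isAlgebraic b)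
  apply h5
  rw [eq_bot_iff]
  intro c hc
  rw [Ideal.mem_comap, RingHom.mem_ker] at hc
  have hc' : φ (c : A) = 0 := hc
  obtain ⟨P, hP⟩ := (Algebra.adjoin_range_eq_range_aeval E a).le c.2
  have h7 : aeval (fun y : t => (y : B)) P = 0 := by
    have h8 : (aeval (fun y : t => (y : B)) : MvPolynomial t E →ₐ[E] B) =
        φ.comp (aeval a) := by
      apply MvPolynomial.algHom_ext
      intro y
      rw [aeval_X, AlgHom.comp_apply, aeval_X, ha]
    rw [h8, AlgHom.comp_apply]
    change φ ((aeval a).toRingHom P) = 0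
    have : (aeval a).toRingHom P = (c : A) := hP
    rw [this, hc']
  have h8 : P = 0 := by
    have h9 : Function.Injective (aeval (fun y : t => (y : B)) : MvPolynomial t E →ₐ[E] B) := htb.1
    apply h9
    rw [h7, map_zero]
  rw [Submodule.mem_bot]
  apply Subtype.ext
  change (c : A) = 0
  rw [← hP, h8]
  exact map_zero _

/-- The transcendence degree of the residue rings. -/
theorem trdeg_quot_lt {E R : Type u} [Field E] [CommRing R] [Algebra E R]
    {P q : Ideal R} [P.IsPrime] [q.IsPrime] (hPq : P < q)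
    (hfin : Algebra.trdeg E (R ⧸ P) < Cardinal.aleph0) :
    Algebra.trdeg E (R ⧸ q) < Algebra.trdeg E (R ⧸ P) := by
  obtain ⟨b, hbq, hbP⟩ := SetLike.exists_of_lt hPq
  let φ : (R ⧸ P) →ₐ[E] (R ⧸ q) := Ideal.Quotient.factorₐ E hPq.le
  have hφ : ∀ a : R, φ (Ideal.Quotient.mk P a) = Ideal.Quotient.mk q a := fun a => rfl
  refine trdeg_lt φ ?_ hfin (b := Ideal.Quotient.mk P b) ?_ ?_
  · have h1 : Algebra.adjoin E (Set.range φ) = ⊤ := by
      rw [eq_top_iff]
      rintro x -
      obtain ⟨a, rfl⟩ := Ideal.Quotient.mk_surjective x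
      exact Algebra.subset_adjoin ⟨Ideal.Quotient.mk P a, hφ a⟩
    rw [h1]
    refine ⟨fun x => ?_⟩
    have h2 := isAlgebraic_algebraMap (R := (⊤ : Subalgebra E (R ⧸ q))) (A := R ⧸ q)
      ⟨x, Algebra.mem_top⟩
    exact h2
  · rw [ne_eq, Ideal.Quotient.eq_zero_iff_mem]
    exact hbP
  · rw [hφ, Ideal.Quotient.eq_zero_iff_mem]
    exact hbq

namespace LData

variable {k E : Type u} [Field k] [Field E] [Algebra k E] {p : ℕ} {N n r : ℕ}
  {S : LData E p N n r} [Fact p.Prime] [CharP k p]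

/-- The next polynomial is not in the minimal primes over the previous equations. -/
lemma f_not_mem (hS : S.Ok) {j : Fin r} (hinv : Inv k S j.val) {P : Ideal (MvPolynomial (Fin N) E)}
    (hP : P ∈ (Ideal.span (S.f '' {l | l.val < j.val ∧ l ∈ S.J})).minimalPrimes)
    (hDn : ∀ s ∈ Dn S j.val, s ∉ P) : S.f j ∉ P := by
  classical
  have hPp : P.IsPrime := hP.1.1
  let L := FractionRing (MvPolynomial (Fin N) E ⧸ P)
  let ψ : MvPolynomial (Fin N) E →ₐ[k] L :=
    (IsScalarTower.toAlgHom k (MvPolynomial (Fin N) E ⧸ P) L).comp (Ideal.Quotient.mkₐ k P)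
  have hψ0 : ∀ a, ψ a = 0 ↔ a ∈ P := by
    intro a
    change algebraMap (MvPolynomial (Fin N) E ⧸ P) L (Ideal.Quotient.mk P a) = 0 ↔ _
    rw [FaithfulSMul.algebraMap_eq_zero_iff, Ideal.Quotient.eq_zero_iff_mem]
  have hψker : RingHom.ker ψ.toRingHom = P := by
    ext a
    rw [RingHom.mem_ker]
    exact hψ0 a
  have hL : ∀ x : L, ∃ a b, ψ b ≠ 0 ∧ x * ψ b = ψ a := by
    intro x
    obtain ⟨a, b, hb, rfl⟩ := IsFractionRing.div_surjective
      (A := MvPolynomial (Fin N) E ⧸ P) x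
    obtain ⟨a, rfl⟩ := Ideal.Quotient.mk_surjective a
    obtain ⟨b, rfl⟩ := Ideal.Quotient.mk_surjective b
    have hb0 : ψ b ≠ 0 := by
      rw [ne_eq, hψ0, ← Ideal.Quotient.eq_zero_iff_mem]
      exact nonZeroDivisors.ne_zero hb
    exact ⟨a, b, hb0, div_mul_cancel₀ _ hb0⟩
  have hDn' : ∀ s ∈ Dn S j.val, ψ s ≠ 0 := fun s hs h => hDn s hs ((hψ0 s).1 h)
  obtain ⟨hst, hpr⟩ := hinv L ψ hL (by rw [hψker]; exact hP) hDn'
  have hne : Nonempty (S.ι j) := ⟨S.i0 j⟩
  have hsep := sep_j hS ψ hL j hpr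
  have hg0 := gL_ne ψ hS.h0 hDn'
  intro hf
  have h1 := (hψ0 _).2 hf
  rw [psi_f hS] at h1
  simp only [one_smul] at h1
  exact sum_ne_zero_of_sep hsep (fun i => Finset.prod_ne_zero_iff.2 fun x _ =>
    zpow_ne_zero _ (hg0 x)) h1

open Classical in
/-- The number of equations. -/
noncomputable def cnt (S : LData E p N n r) (j : ℕ) : ℕ :=
  (Finset.univ.filter fun l : Fin r => l.val < j ∧ l ∈ S.J).card

lemma cnt_kept {j : Fin r} (hj : j ∉ S.J) : cnt S (j.val + 1) = cnt S j.val := by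
  classical
  unfold cnt
  congr 1
  ext l
  simp only [Finset.mem_filter, Finset.mem_univ, true_and]
  constructor
  · rintro ⟨h1, h2⟩
    have : l ≠ j := fun h => hj (h ▸ h2)
    have := Fin.val_ne_of_ne this
    exact ⟨by omega, h2⟩
  · rintro ⟨h1, h2⟩
    exact ⟨by omega, h2⟩

lemma cnt_cut {j : Fin r} (hj : j ∈ S.J) : cnt S (j.val + 1) = cnt S j.val + 1 := by
  classical
  unfold cnt
  have h1 : (Finset.univ.filter fun l : Fin r => l.val < j.val + 1 ∧ l ∈ S.J) =
      insert j (Finset.univ.filter fun l : Fin r => l.val < j.val ∧ l ∈ S.J) := by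
    ext l
    simp only [Finset.mem_filter, Finset.mem_univ, true_and, Finset.mem_insert]
    constructor
    · rintro ⟨h1, h2⟩
      by_cases h3 : l = j
      · exact Or.inl h3
      · have := Fin.val_ne_of_ne h3
        exact Or.inr ⟨by omega, h2⟩
    · rintro (rfl | ⟨h1, h2⟩)
      · exact ⟨by omega, hj⟩
      · exact ⟨by omega, h2⟩
  rw [h1, Finset.card_insert_of_notMem]
  simp

/-- The dimension of the components. -/
theorem trdeg_le (hS : S.Ok) (hinv : ∀ j ≤ r, Inv k S j) : ∀ j : ℕ, j ≤ r →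
    ∀ q : Ideal (MvPolynomial (Fin N) E), q.IsPrime →
      (∀ l : Fin r, l.val < j → l ∈ S.J → S.f l ∈ q) → (∀ s ∈ Dn S j, s ∉ q) →
      Algebra.trdeg E (MvPolynomial (Fin N) E ⧸ q) + (cnt S j : Cardinal.{u}) ≤ N := by
  intro j
  induction j with
  | zero =>
    intro _ q hq _ _
    have h1 : cnt S 0 = 0 := by
      classical
      unfold cnt
      rw [Finset.card_eq_zero, Finset.filter_eq_empty_iff]
      rintro l - ⟨h, -⟩
      exact Nat.not_lt_zero _ h
    rw [h1, Nat.cast_zero, add_zero]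
    have h2 := _root_.trdeg_le_of_surjective (R := E) (Ideal.Quotient.mkₐ E q)
      (Ideal.Quotient.mkₐ_surjective E q)
    refine h2.trans ?_
    rw [MvPolynomial.trdeg_of_isDomain]
    simp
  | succ j ih =>
    intro hj q hq hqJ hqD
    let j' : Fin r := ⟨j, by omega⟩
    have hD : ∀ s ∈ Dn S j, s ∉ q := fun s hs => hqD s (Dn_mono (Nat.le_succ _) hs)
    by_cases hJ : j' ∈ S.J
    · have hc : cnt S (j + 1) = cnt S j + 1 := cnt_cut (j := j') hJ
      obtain ⟨P, hP, hPle⟩ := Ideal.exists_minimalPrimes_le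
        (I := Ideal.span (S.f '' {l | l.val < j ∧ l ∈ S.J})) (J := q) (by
          rw [Ideal.span_le]
          rintro _ ⟨l, ⟨h1, h2⟩, rfl⟩
          exact hqJ l (by omega) h2)
      have hPp : P.IsPrime := hP.1.1
      have hfP : S.f j' ∉ P := f_not_mem (k := k) hS (j := j') (hinv j (by omega)) hP
        (fun s hs h => hD s hs (hPle h))
      have hlt : P < q := lt_of_le_of_ne hPle (by
        rintro rfl
        exact hfP (hqJ j' (Nat.lt_succ_self _) hJ))
      have h1 := ih (by omega) P hPp (fun l h1 h2 => hP.1.2 (Ideal.subset_span ⟨l, ⟨h1, h2⟩, rfl⟩))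
        (fun s hs h => hD s hs (hPle h))
      have h2 : Algebra.trdeg E (MvPolynomial (Fin N) E ⧸ P) < Cardinal.aleph0 :=
        (le_self_add.trans h1).trans_lt (Cardinal.natCast_lt_aleph0)
      have h3 := Cardinal.add_one_le_of_lt (trdeg_quot_lt hlt h2)
      rw [hc]
      push_cast
      calc Algebra.trdeg E (MvPolynomial (Fin N) E ⧸ q) + ((cnt S j : Cardinal.{u}) + 1)
          = (Algebra.trdeg E (MvPolynomial (Fin N) E ⧸ q) + 1) + (cnt S j : Cardinal.{u}) := by
            rw [add_comm (cnt S j : Cardinal.{u}) 1, ← add_assoc]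
        _ ≤ Algebra.trdeg E (MvPolynomial (Fin N) E ⧸ P) + (cnt S j : Cardinal.{u}) :=
            add_le_add_left h3 _
        _ ≤ N := h1
    · have hc : cnt S (j + 1) = cnt S j := cnt_kept (j := j') hJ
      rw [hc]
      exact ih (by omega) q hq (fun l h1 h2 => hqJ l (by omega) h2) hD

/-- A prime ideal of the right dimension is minimal over the equations. -/
theorem minimal_of_trdeg (hS : S.Ok) (hinv : ∀ j ≤ r, Inv k S j) {L : Type u} [Field L]
    [Algebra E L] (φ : MvPolynomial (Fin N) E →ₐ[E] L) (hφJ : ∀ l ∈ S.J, φ (S.f l) = 0)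
    (hφD : ∀ s ∈ Dn S r, φ s ≠ 0) (hL : ∀ x : L, ∃ a b, φ b ≠ 0 ∧ x * φ b = φ a)
    (htr : Algebra.trdeg E L + (cnt S r : Cardinal.{u}) = N) :
    RingHom.ker φ.toRingHom ∈ (Ideal.span (S.f '' {l | l.val < r ∧ l ∈ S.J})).minimalPrimes := by
  have hkp : (RingHom.ker φ.toRingHom).IsPrime := RingHom.ker_isPrime _
  obtain ⟨P, hP, hPle⟩ := Ideal.exists_minimalPrimes_le
    (I := Ideal.span (S.f '' {l | l.val < r ∧ l ∈ S.J})) (J := RingHom.ker φ.toRingHom) (by
      rw [Ideal.span_le]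
      rintro _ ⟨l, ⟨h1, h2⟩, rfl⟩
      exact RingHom.mem_ker.2 (hφJ l h2))
  by_cases hPq : P = RingHom.ker φ.toRingHom
  · rw [← hPq]
    exact hP
  exfalso
  have hPp : P.IsPrime := hP.1.1
  have hlt : P < RingHom.ker φ.toRingHom := lt_of_le_of_ne hPle hPq
  obtain ⟨b, hbq, hbP⟩ := SetLike.exists_of_lt hlt
  have h1 := trdeg_le hS hinv r le_rfl P hPp
    (fun l h1 h2 => hP.1.2 (Ideal.subset_span ⟨l, ⟨h1, h2⟩, rfl⟩))
    (fun s hs h => hφD s hs (RingHom.mem_ker.1 (hPle h)))
  have h2 : Algebra.trdeg E (MvPolynomial (Fin N) E ⧸ P) < Cardinal.aleph0 :=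
    (le_self_add.trans h1).trans_lt (Cardinal.natCast_lt_aleph0)
  let φ' : (MvPolynomial (Fin N) E ⧸ P) →ₐ[E] L := Ideal.Quotient.liftₐ P φ
    (fun a ha => RingHom.mem_ker.1 (hPle ha))
  have hφ' : ∀ a, φ' (Ideal.Quotient.mk P a) = φ a := fun a => rfl
  have h3 : Algebra.trdeg E L < Algebra.trdeg E (MvPolynomial (Fin N) E ⧸ P) := by
    refine trdeg_lt φ' ?_ h2 (b := Ideal.Quotient.mk P b) ?_ ?_
    · refine ⟨fun x => ?_⟩
      obtain ⟨a, b, hb, h⟩ := hL x
      have ha : φ a ∈ Algebra.adjoin E (Set.range φ') :=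
        Algebra.subset_adjoin ⟨Ideal.Quotient.mk P a, hφ' a⟩
      have hb' : φ b ∈ Algebra.adjoin E (Set.range φ') :=
        Algebra.subset_adjoin ⟨Ideal.Quotient.mk P b, hφ' b⟩
      have h4 := isAlgebraic_algebraMap (R := Algebra.adjoin E (Set.range φ')) (A := L)
        ⟨φ a, ha⟩
      have h5 := isAlgebraic_algebraMap (R := Algebra.adjoin E (Set.range φ')) (A := L)
        ⟨φ b, hb'⟩
      have h6 : x = φ a * (φ b)⁻¹ := by rw [← h, mul_inv_cancel_right₀ hb]
      rw [h6]
      exact h4.mul h5.inv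
    · rw [ne_eq, Ideal.Quotient.eq_zero_iff_mem]
      exact hbP
    · rw [hφ']
      exact RingHom.mem_ker.1 hbq
  have h4 := Cardinal.add_one_le_of_lt h3
  have h5 : ((N + 1 : ℕ) : Cardinal.{u}) ≤ (N : Cardinal.{u}) := by
    push_cast
    calc (N : Cardinal.{u}) + 1 = (Algebra.trdeg E L + 1) + (cnt S r : Cardinal.{u}) := by
          rw [← htr, add_assoc, add_comm (cnt S r : Cardinal.{u}) 1, ← add_assoc]
      _ ≤ Algebra.trdeg E (MvPolynomial (Fin N) E ⧸ P) + (cnt S r : Cardinal.{u}) :=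
          add_le_add_left h4 _
      _ ≤ N := h1
  have h6 : N + 1 ≤ N := by exact_mod_cast h5
  omega

end LData

end Pool.Agent.W418.LCI
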