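import Pool.Agent.W418.LCI.Dim
import Pool.Agent.W558.T3.Base

set_option autoImplicit false
set_option linter.unusedVariables false
set_option linter.unusedSimpArgs false
set_option linter.unusedSectionVars false

universe u

open MvPolynomial

namespace Pool.Agent.W418.LCI

open Pool.Agent.W558 Pool.Agent.W418.Lin

/-- The degree of a term. -/
def dg {p n r : ℕ} (deg : Fin r → Fin n → ZMod p) (d : Fin n → ℕ) (e : Fin r → ℕ) :
    Fin n → ZMod p :=
  fun s => d s + ∑ l, e l * deg l s

section coords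

variable {E K : Type u} [Field E] [Field K] [Algebra E K] {n : ℕ} (V : Fin n → Submodule E K)
  [∀ s, FiniteDimensional E (V s)]

/-- Coordinates of the elements of the subspaces. -/
theorem exists_coords : ∃ (blk : Fin (∑ s, Module.finrank E (V s)) → Fin n)
    (x : Fin (∑ s, Module.finrank E (V s)) → K), (∀ i, x i ∈ V (blk i)) ∧ (∀ i, x i ≠ 0) ∧
    ∀ s, ∀ y ∈ V s, ∃ v : Fin (∑ s, Module.finrank E (V s)) → E,
      (∀ i, v i ≠ 0 → blk i = s) ∧ ∑ i, algebraMap E K (v i) * x i = y := by
  classical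
  have hc : Fintype.card (Σ s : Fin n, Fin (Module.finrank E (V s))) =
      ∑ s, Module.finrank E (V s) := by
    rw [Fintype.card_sigma]
    simp
  let q : (Σ s : Fin n, Fin (Module.finrank E (V s))) ≃ Fin (∑ s, Module.finrank E (V s)) :=
    Fintype.equivFinOfCardEq hc
  let bas := fun s => Module.finBasis E (V s)
  refine ⟨fun i => (q.symm i).1, fun i => (bas (q.symm i).1 (q.symm i).2 : K),
    fun i => Subtype.property _, fun i h => ?_, ?_⟩
  · exact (bas (q.symm i).1).ne_zero (q.symm i).2 (Subtype.ext h)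
  · intro s y hy
    let v' : (Σ s : Fin n, Fin (Module.finrank E (V s))) → E := fun a =>
      if h : a.1 = s then (bas s).repr ⟨y, hy⟩ (h ▸ a.2) else 0
    refine ⟨fun i => v' (q.symm i), ?_, ?_⟩
    · intro i hi
      by_contra h
      exact hi (dif_neg h)
    · have h1 : ∑ i, algebraMap E K (v' (q.symm i)) * (bas (q.symm i).1 (q.symm i).2 : K) =
          ∑ a, algebraMap E K (v' a) * (bas a.1 a.2 : K) :=
        Equiv.sum_comp q.symm fun a => algebraMap E K (v' a) * (bas a.1 a.2 : K)
      rw [h1, Fintype.sum_sigma, Finset.sum_eq_single s]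
      · have h2 : ∀ t, v' ⟨s, t⟩ = (bas s).repr ⟨y, hy⟩ t := fun t => dif_pos rfl
        simp only [h2]
        have h3 := congrArg Subtype.val ((bas s).sum_repr ⟨y, hy⟩)
        rw [Submodule.coe_sum] at h3
        refine Eq.trans (Finset.sum_congr rfl fun t _ => ?_) h3
        rw [Submodule.coe_smul, Algebra.smul_def]
      · intro s' _ hs'
        refine Finset.sum_eq_zero fun t _ => ?_
        have h2 : v' ⟨s', t⟩ = 0 := dif_neg hs'
        rw [h2, map_zero, zero_mul]
      · intro h; exact absurd (Finset.mem_univ _) h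

end coords

/-- Recursive definitions. -/
theorem exists_rec {R : Type u} [CommRing R] {r : ℕ} {ι : Fin r → Type} [∀ j, Fintype (ι j)]
    (m : ∀ j, ι j → R) (e : ∀ j, ι j → Fin r → ℕ) (he : ∀ j i l, e j i l ≠ 0 → l < j) :
    ∃ F : Fin r → R, ∀ j, F j = ∑ i, m j i * ∏ l, F l ^ e j i l := by
  classical
  let F : Fin r → R := (wellFounded_lt (α := Fin r)).fix
    fun j rec => ∑ i, m j i * ∏ l, (if h : l < j then rec l h else 1) ^ e j i l
  refine ⟨F, fun j => ?_⟩
  have h1 : F j = ∑ i, m j i * ∏ l, (if h : l < j then F l else 1) ^ e j i l :=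
    WellFounded.fix_eq _ _ _
  rw [h1]
  refine Finset.sum_congr rfl fun i _ => ?_
  congr 1
  refine Finset.prod_congr rfl fun l _ => ?_
  by_cases h : e j i l = 0
  · rw [h, pow_zero, pow_zero]
  · rw [dif_pos (he j i l h)]

/-- Every finite family of nonzero elements of `E` is locally monomial on some smooth projective
model with normal crossings divisor. -/
def HasLM (k E : Type u) [Field k] [Field E] [Algebra k E] : Prop :=
  ∀ (H : Type) [Fintype H] (h : H → E), (∀ t, h t ≠ 0) →
    ∃ (T I : Type) (_ : Finite T) (_ : Fintype I) (M : LM (⊥ : Subalgebra k E) ⊤ T I)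
      (Γ : H → I → ℤ), Fn M h Γ ∧
      ∀ t (x : E), ∃ a ∈ M.A t, ∃ b ∈ M.A t, b ≠ 0 ∧ x = a * b⁻¹

/-- Surfaces. -/
theorem hasLM_of_surface (k E : Type u) [Field k] [PerfectField k] [Field E] [Algebra k E]
    (h2 : Algebra.trdeg k E = 2) (hM : HasModel k E) : HasLM k E := by
  intro H _ h hh
  obtain ⟨s0⟩ := all_init k E hM
  obtain ⟨s1, Γ, hΓ⟩ := all_log k E h2 s0 H h hh
  exact ⟨_, _, inferInstance, inferInstance, s1.M, Γ, hΓ, fun t => (s1.sf t).fr⟩

/-- The general case. -/
theorem hasLM_of_models (k E : Type u) [Field k] [Field E] [Algebra k E]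
    (hE : HasLogModels k E) : HasLM k E := by
  intro H _ h hh
  let q := Fintype.equivFin H
  obtain ⟨N, L, HH, x, Γ, h1⟩ := hE (Fintype.card H) (h ∘ q.symm) (fun b => hh _)
  obtain ⟨M, hF, hfr⟩ := h1.exists_LM
  refine ⟨Fin (N + 1), Fin L, inferInstance, inferInstance, M, Γ ∘ q, ?_, hfr⟩
  intro t i
  obtain ⟨w, hw⟩ := hF (q t) i
  refine ⟨w, ?_⟩
  simpa using hw

/-- The stage of a field which is generated by subspaces `V s` and which is the function field of a
component of the complete intersection with the equations `f j = 0`. -/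
theorem exists_sta' (p : ℕ) [Fact p.Prime] (k E K : Type u) [Field k] [PerfectField k] [CharP k p]
    [Field E] [Algebra k E] [Field K] [Algebra E K] [Algebra k K] [IsScalarTower k E K]
    (hE : HasLM k E)
    (n : ℕ) (V : Fin n → Submodule E K) [∀ s, FiniteDimensional E (V s)]
    (hgen : IntermediateField.adjoin E (⋃ s, (V s : Set K)) = ⊤)
    (r : ℕ) (ι : Fin r → Type) [∀ j, Fintype (ι j)] (i₀ : ∀ j, ι j)
    (c : ∀ j, ι j → E) (hc : ∀ j i, c j i ≠ 0) (d : ∀ j, ι j → Fin n → ℕ)
    (g : ∀ j i s, Fin (d j i s) → K) (hgV : ∀ j i s t, g j i s t ∈ V s)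
    (hg0 : ∀ j i s t, g j i s t ≠ 0) (e : ∀ j, ι j → Fin r → ℕ) (f : Fin r → K)
    (he : ∀ j i l, e j i l ≠ 0 → l < j ∧ f l ≠ 0)
    (hf : ∀ j, f j = ∑ i, algebraMap E K (c j i) * ((∏ s, ∏ t, g j i s t) * ∏ l, f l ^ e j i l))
    (deg : Fin r → Fin n → ZMod p) (hdeg : ∀ j, deg j = dg deg (d j (i₀ j)) (e j (i₀ j)))
    (hind : LinearIndependent (ZMod p) fun q : (j : Fin r) × {i : ι j // i ≠ i₀ j} =>
      dg deg (d q.1 q.2) (e q.1 q.2) - deg q.1)
    (htr : Algebra.trdeg E K + (Nat.card {j // f j = 0} : Cardinal.{u}) =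
      ((∑ s, Module.finrank E (V s) : ℕ) : Cardinal.{u}))
    (H' : Type) [Finite H'] (h' : H' → E) (hh' : ∀ b, h' b ≠ 0)
    (Λ' : Type) [Finite Λ'] (u : Λ' → K) (ub : Λ' → Fin n) (hu : ∀ q, u q ∈ V (ub q))
    (hu0 : ∀ q, u q ≠ 0) :
    ∃ (Q : Subalgebra k K) (Ds : Set (Derivation k K K)),
      Sta (Sum.elim (fun b => algebraMap E K (h' b)) (Sum.elim u
        (fun l => open Classical in if f l = 0 then 1 else f l))) Q Ds ∧
      ∀ x : K, ∃ a ∈ Q, ∃ b ∈ Q, b ≠ 0 ∧ x = a / b := by
  classical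
  have : Fintype H' := Fintype.ofFinite H'
  have : Fintype Λ' := Fintype.ofFinite Λ'
  obtain ⟨blk, x, hxV, hx0, hco⟩ := exists_coords V
  generalize hN : (∑ s, Module.finrank E (V s)) = N at blk x hxV hx0 hco htr
  -- the linear forms
  let Λ : Type := (Σ ji : (Σ j, ι j), Σ s : Fin n, Fin (d ji.1 ji.2 s)) ⊕ (Λ' ⊕ Fin N)
  let LV : Λ → K := Sum.elim (fun q => g q.1.1 q.1.2 q.2.1 q.2.2) (Sum.elim u x)
  let LB : Λ → Fin n := Sum.elim (fun q => q.2.1) (Sum.elim ub blk)
  have hLV : ∀ q, LV q ∈ V (LB q) := by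
    rintro (q | q | q)
    · exact hgV _ _ _ _
    · exact hu q
    · exact hxV q
  have hLV0 : ∀ q, LV q ≠ 0 := by
    rintro (q | q | q)
    · exact hg0 _ _ _ _
    · exact hu0 q
    · exact hx0 q
  choose v0 hv0b hv0 using fun q => hco (LB q) (LV q) (hLV q)
  let v : Λ → Fin N → E := fun q => Sum.elim (fun q => v0 (Sum.inl q))
    (Sum.elim (fun q => v0 (Sum.inr (Sum.inl q))) fun i => Pi.single i 1) q
  have hvb : ∀ q i, v q i ≠ 0 → blk i = LB q := by
    rintro (q | q | q) i hi
    · exact hv0b _ i hi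
    · exact hv0b _ i hi
    · have h1 : i = q := by
        by_contra h
        exact hi (Pi.single_eq_of_ne h 1)
      rw [h1]
      rfl
  have hvs : ∀ q, ∑ i, algebraMap E K (v q i) * x i = LV q := by
    rintro (q | q | q)
    · exact hv0 _
    · exact hv0 _
    · change ∑ i, algebraMap E K ((Pi.single q 1 : Fin N → E) i) * x i = x q
      rw [Finset.sum_eq_single q]
      · rw [Pi.single_eq_same, map_one, one_mul]
      · intro i _ hi
        rw [Pi.single_eq_of_ne hi, map_zero, zero_mul]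
      · intro h; exact absurd (Finset.mem_univ _) h
  have hvn : ∀ q, v q ≠ 0 := by
    intro q h
    apply hLV0 q
    rw [← hvs q, h]
    simp
  -- the data
  let lin : Λ → MvPolynomial (Fin N) E := fun q => ∑ i, C (v q i) * X i
  let a : ∀ j, ι j → Λ → ℕ := fun j i => Sum.elim (fun q => if q.1 = ⟨j, i⟩ then 1 else 0)
    fun _ => 0
  obtain ⟨F, hF⟩ := exists_rec (R := MvPolynomial (Fin N) E)
    (fun j i => C (c j i) * ∏ q, lin q ^ a j i q) e (fun j i l h => (he j i l h).1)
  let S : LData E p N n r :=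
    { Λ := Λ, finΛ := inferInstance, v := v, bl := LB, blk := blk, ι := ι
      fin := inferInstance
      H := ((Σ j, ι j) ⊕ {s : Fin N → Λ // pl v s ≠ 0}) ⊕ H', finH := inferInstance
      h := Sum.elim (Sum.elim (fun q => c q.1 q.2) fun s => pl v s.1) h'
      i0 := i₀, c := fun j i => Sum.inl (Sum.inl ⟨j, i⟩), a := a, e := e, f := F, deg := deg
      J := {j | f j = 0} }
  have hprod : ∀ {M : Type u} [CommMonoid M] (y : Λ → M) (j : Fin r) (i : ι j),
      ∏ q, y q ^ a j i q = ∏ s, ∏ t : Fin (d j i s), y (Sum.inl ⟨⟨j, i⟩, s, t⟩) := by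
    intro M _ y j i
    rw [Fintype.prod_sum_type]
    have h1 : ∏ q : Λ' ⊕ Fin N, y (Sum.inr q) ^ a j i (Sum.inr q) = 1 :=
      Finset.prod_eq_one fun q _ => pow_zero _
    rw [h1, mul_one, Fintype.prod_sigma, Finset.prod_eq_single (⟨j, i⟩ : Σ j, ι j)]
    · rw [Fintype.prod_sigma]
      refine Finset.prod_congr rfl fun s _ => Finset.prod_congr rfl fun t _ => ?_
      have h2 : a j i (Sum.inl ⟨⟨j, i⟩, s, t⟩) = 1 := if_pos rfl
      rw [h2, pow_one]
    · intro q _ hq
      refine Finset.prod_eq_one fun t _ => ?_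
      have h2 : a j i (Sum.inl ⟨q, t⟩) = 0 := if_neg hq
      rw [h2, pow_zero]
    · intro h; exact absurd (Finset.mem_univ _) h
  have hw : ∀ j i, S.w j i = dg deg (d j i) (e j i) := by
    intro j i
    funext s
    change (∑ q, if LB q = s then (a j i q : ZMod p) else 0) + ∑ l, (e j i l : ZMod p) * deg l s =
      (d j i s : ZMod p) + ∑ l, (e j i l : ZMod p) * deg l s
    congr 1
    rw [Fintype.sum_sum_type]
    have h1 : ∑ q : Λ' ⊕ Fin N, (if LB (Sum.inr q) = s then (a j i (Sum.inr q) : ZMod p) else 0) =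
        0 := Finset.sum_eq_zero fun q _ => by
      have : a j i (Sum.inr q) = 0 := rfl
      rw [this, Nat.cast_zero, ite_self]
    rw [h1, add_zero, Fintype.sum_sigma, Finset.sum_eq_single (⟨j, i⟩ : Σ j, ι j)]
    · rw [Fintype.sum_sigma, Finset.sum_eq_single s]
      · have h2 : ∀ t : Fin (d j i s), (if LB (Sum.inl ⟨⟨j, i⟩, s, t⟩) = s then
            (a j i (Sum.inl ⟨⟨j, i⟩, s, t⟩) : ZMod p) else 0) = 1 := by
          intro t
          have h3 : a j i (Sum.inl ⟨⟨j, i⟩, s, t⟩) = 1 := if_pos rfl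
          rw [h3, Nat.cast_one]
          exact if_pos rfl
        rw [Finset.sum_congr rfl fun t _ => h2 t]
        simp
      · intro s' _ hs'
        refine Finset.sum_eq_zero fun t _ => if_neg ?_
        exact hs'
      · intro h; exact absurd (Finset.mem_univ _) h
    · intro q _ hq
      refine Finset.sum_eq_zero fun t _ => ?_
      have h2 : a j i (Sum.inl ⟨q, t⟩) = 0 := if_neg hq
      rw [h2, Nat.cast_zero, ite_self]
    · intro h; exact absurd (Finset.mem_univ _) h
  have hS : S.Ok :=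
    { h0 := by
        rintro ((q | s) | b)
        · exact hc q.1 q.2
        · exact s.2
        · exact hh' b
      hv0 := hvn
      hvb := hvb
      e0 := by
        intro j i l h
        by_contra h0
        obtain ⟨h3, h4⟩ := he j i l h0
        rcases h with h | h
        · exact absurd h3 (not_lt.2 h)
        · exact h4 h
      hf := by
        intro j
        refine (hF j).trans (Finset.sum_congr rfl fun i _ => ?_)
        exact mul_assoc _ _ _
      hdeg := by
        intro j s
        rw [hw]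
        exact congrFun (hdeg j) s
      ind := by
        have h1 : S.dv = fun q : (j : Fin r) × {i : ι j // i ≠ i₀ j} =>
            dg deg (d q.1 q.2) (e q.1 q.2) - deg q.1 := by
          funext q s
          change S.w q.1 q.2 s - deg q.1 s = _
          rw [hw]
          rfl
        rw [h1]
        exact hind }
  obtain ⟨T, I, iT, iI, M0, Γ, hΓ, hfr0⟩ := hE S.H S.h hS.h0
  have hinv0 : LData.Inv k S 0 := LData.inv_zero (k := k) hS M0 Γ hΓ hfr0
    (fun s hs => ⟨Sum.inl (Sum.inr ⟨s, hs⟩), rfl⟩) ⟨fun i => Sum.inr (Sum.inr i), by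
      have h1 : (fun i => S.v (Sum.inr (Sum.inr i))) = (1 : Matrix (Fin N) (Fin N) E) := by
        funext i j
        change (Pi.single i 1 : Fin N → E) j = _
        rw [Matrix.one_apply]
        by_cases h : i = j
        · rw [h, Pi.single_eq_same, if_pos rfl]
        · rw [if_neg h, Pi.single_eq_of_ne (Ne.symm h)]
      unfold pl
      rw [h1, Matrix.det_one]
      exact one_ne_zero⟩
  have hinv := LData.inv_all (k := k) hS hinv0
  -- the evaluation
  let φ : MvPolynomial (Fin N) E →ₐ[E] K := aeval x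
  let ψ : MvPolynomial (Fin N) E →ₐ[k] K := φ.restrictScalars k
  have hφlin : ∀ q, φ (S.lin q) = LV q := by
    intro q
    change φ (∑ i, C (v q i) * X i) = _
    rw [map_sum, ← hvs q]
    refine Finset.sum_congr rfl fun i _ => ?_
    rw [map_mul]
    change aeval x (C (v q i)) * aeval x (X i) = _
    rw [aeval_C, aeval_X]
  have hφF : ∀ (M : ℕ) (j : Fin r), j.val = M → φ (F j) = f j := by
    intro M
    induction M using Nat.strong_induction_on with
    | _ M ih =>
      intro j hj
      rw [hF j, hf j, map_sum]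
      refine Finset.sum_congr rfl fun i _ => ?_
      rw [map_mul, map_mul, map_prod, map_prod, mul_assoc]
      have h3 : φ (C (c j i)) = algebraMap E K (c j i) := aeval_C _ _
      have h4 : ∏ q, φ (lin q ^ a j i q) = ∏ s, ∏ t, g j i s t := by
        have h5 : ∀ q, φ (lin q ^ a j i q) = LV q ^ a j i q := by
          intro q
          rw [map_pow]
          exact congrArg (· ^ a j i q) (hφlin q)
        rw [Finset.prod_congr rfl fun q _ => h5 q, hprod LV j i]
        rfl
      rw [h3, h4]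
      congr 2
      refine Finset.prod_congr rfl fun l _ => ?_
      rw [map_pow]
      by_cases h : e j i l = 0
      · rw [h, pow_zero, pow_zero]
      · rw [ih l.val (by rw [← hj]; exact (he j i l h).1) l rfl]
  have hφF' : ∀ j, φ (S.f j) = f j := fun j => hφF j.val j rfl
  have hDn : ∀ s ∈ LData.Dn S r, φ s ≠ 0 := by
    intro s hs
    refine Submonoid.closure_induction (motive := fun s _ => φ s ≠ 0) ?_ ?_ ?_ hs
    · rintro y ((⟨b, hb, rfl⟩ | ⟨q, rfl⟩) | ⟨l, hl, hJ, rfl⟩)
      · have h3 : φ (C b) = algebraMap E K b := aeval_C _ _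
        rw [h3]
        exact (map_ne_zero _).2 hb
      · rw [hφlin]
        exact hLV0 q
      · rw [hφF']
        exact hJ
    · rw [map_one]; exact one_ne_zero
    · intro y z _ _ hy hz
      rw [map_mul]
      exact mul_ne_zero hy hz
  have hfrac : ∀ y : K, ∃ a b, φ b ≠ 0 ∧ y * φ b = φ a := by
    have h3 : ∀ y ∈ IntermediateField.adjoin E (⋃ s, (V s : Set K)),
        ∃ a b, φ b ≠ 0 ∧ y * φ b = φ a := by
      intro y hy
      induction hy using IntermediateField.adjoin_induction with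
      | mem y hy =>
        obtain ⟨s, hs⟩ := Set.mem_iUnion.1 hy
        obtain ⟨v', -, hv'⟩ := hco s y hs
        refine ⟨∑ i, C (v' i) * X i, 1, by rw [map_one]; exact one_ne_zero, ?_⟩
        rw [map_one, mul_one, map_sum, ← hv']
        refine Finset.sum_congr rfl fun i _ => ?_
        rw [map_mul]
        change _ = aeval x (C (v' i)) * aeval x (X i)
        rw [aeval_C, aeval_X]
      | algebraMap b =>
        refine ⟨C b, 1, by rw [map_one]; exact one_ne_zero, ?_⟩
        rw [map_one, mul_one]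
        exact (aeval_C _ _).symm
      | add y z _ _ hy hz =>
        obtain ⟨a, b, hb, h4⟩ := hy
        obtain ⟨a', b', hb', h5⟩ := hz
        refine ⟨a * b' + a' * b, b * b', by rw [map_mul]; exact mul_ne_zero hb hb', ?_⟩
        rw [map_add, map_mul, map_mul, map_mul, ← h4, ← h5]
        ring
      | mul y z _ _ hy hz =>
        obtain ⟨a, b, hb, h4⟩ := hy
        obtain ⟨a', b', hb', h5⟩ := hz
        refine ⟨a * a', b * b', by rw [map_mul]; exact mul_ne_zero hb hb', ?_⟩
        rw [map_mul, map_mul, ← h4, ← h5]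
        ring
      | inv y _ hy =>
        obtain ⟨a, b, hb, h4⟩ := hy
        by_cases h5 : y = 0
        · refine ⟨0, 1, by rw [map_one]; exact one_ne_zero, ?_⟩
          rw [h5, inv_zero, zero_mul, map_zero]
        · refine ⟨b, a, ?_, ?_⟩
          · rw [← h4]
            exact mul_ne_zero h5 hb
          · rw [← h4, inv_mul_cancel_left₀ h5]
    intro y
    exact h3 y (by rw [hgen]; trivial)
  have hcnt : LData.cnt S r = Nat.card {j // f j = 0} := by
    rw [Nat.card_eq_fintype_card, Fintype.card_subtype]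
    unfold LData.cnt
    congr 1
    ext l
    simp only [Finset.mem_filter, Finset.mem_univ, true_and]
    exact ⟨fun h => h.2, fun h => ⟨l.2, h⟩⟩
  have hker := LData.minimal_of_trdeg (k := k) hS hinv φ
    (fun l hl => by rw [hφF']; exact hl) hDn hfrac (by rw [hcnt]; exact htr)
  obtain ⟨hst, -⟩ := hinv r le_rfl K ψ hfrac hker hDn
  refine ⟨QS ψ (LData.Dn S r), LData.DsL S ψ r, ?_, ?_⟩
  · have h3 := sta_comp hst (Sum.map (fun b : H' => (Sum.inr b : S.H))
      (Sum.map (fun q : Λ' => (Sum.inr (Sum.inl q) : S.Λ)) (id : Fin r → Fin r)))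
    convert h3 using 1
    funext y
    rcases y with b | q | l
    · have h4 : φ (C (h' b)) = algebraMap E K (h' b) := aeval_C _ _
      exact h4.symm
    · exact (hφlin (Sum.inr (Sum.inl q))).symm
    · change (if f l = 0 then 1 else f l) = if l.val < r ∧ l ∉ S.J then ψ (S.f l) else 1
      by_cases h : f l = 0
      · rw [if_pos h, if_neg (fun h4 => h4.2 h)]
      · rw [if_neg h, if_pos ⟨l.2, h⟩]
        exact (hφF' l).symm
  · intro y
    obtain ⟨a, b, hb, h⟩ := hfrac y
    exact ⟨ψ a, map_mem_QS a, ψ b, map_mem_QS b, hb, (eq_div_iff hb).2 h⟩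

/-- The case of surfaces. -/
theorem exists_sta (p : ℕ) [Fact p.Prime] (k E K : Type u) [Field k] [PerfectField k] [CharP k p]
    [Field E] [Algebra k E] [Field K] [Algebra E K] [Algebra k K] [IsScalarTower k E K]
    (h2 : Algebra.trdeg k E = 2) (hM : HasModel k E)
    (n : ℕ) (V : Fin n → Submodule E K) [∀ s, FiniteDimensional E (V s)]
    (hgen : IntermediateField.adjoin E (⋃ s, (V s : Set K)) = ⊤)
    (r : ℕ) (ι : Fin r → Type) [∀ j, Fintype (ι j)] (i₀ : ∀ j, ι j)
    (c : ∀ j, ι j → E) (hc : ∀ j i, c j i ≠ 0) (d : ∀ j, ι j → Fin n → ℕ)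
    (g : ∀ j i s, Fin (d j i s) → K) (hgV : ∀ j i s t, g j i s t ∈ V s)
    (hg0 : ∀ j i s t, g j i s t ≠ 0) (e : ∀ j, ι j → Fin r → ℕ) (f : Fin r → K)
    (he : ∀ j i l, e j i l ≠ 0 → l < j ∧ f l ≠ 0)
    (hf : ∀ j, f j = ∑ i, algebraMap E K (c j i) * ((∏ s, ∏ t, g j i s t) * ∏ l, f l ^ e j i l))
    (deg : Fin r → Fin n → ZMod p) (hdeg : ∀ j, deg j = dg deg (d j (i₀ j)) (e j (i₀ j)))
    (hind : LinearIndependent (ZMod p) fun q : (j : Fin r) × {i : ι j // i ≠ i₀ j} =>
      dg deg (d q.1 q.2) (e q.1 q.2) - deg q.1)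
    (htr : Algebra.trdeg E K + (Nat.card {j // f j = 0} : Cardinal.{u}) =
      ((∑ s, Module.finrank E (V s) : ℕ) : Cardinal.{u}))
    (H' : Type) [Finite H'] (h' : H' → E) (hh' : ∀ b, h' b ≠ 0)
    (Λ' : Type) [Finite Λ'] (u : Λ' → K) (ub : Λ' → Fin n) (hu : ∀ q, u q ∈ V (ub q))
    (hu0 : ∀ q, u q ≠ 0) :
    ∃ (Q : Subalgebra k K) (Ds : Set (Derivation k K K)),
      Sta (Sum.elim (fun b => algebraMap E K (h' b)) (Sum.elim u
        (fun l => open Classical in if f l = 0 then 1 else f l))) Q Ds ∧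
      ∀ x : K, ∃ a ∈ Q, ∃ b ∈ Q, b ≠ 0 ∧ x = a / b :=
  exists_sta' p k E K (hasLM_of_surface k E h2 hM) n V hgen r ι i₀ c hc d g hgV hg0 e f he hf deg
    hdeg hind htr H' h' hh' Λ' u ub hu hu0

end Pool.Agent.W418.LCI
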