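import Pool.Agent.W418.LCI.Defs
import Pool.Agent.W558.S2.CI2

set_option autoImplicit false
set_option linter.unusedVariables false
set_option linter.unusedSimpArgs false
set_option linter.unusedSectionVars false

universe u

open MvPolynomial

namespace Pool.Agent.W418.LCI

open Pool.Agent.W558

namespace LData

variable {k E : Type u} [Field k] [Field E] [Algebra k E] {p : ℕ} {N n r : ℕ}
  {S : LData E p N n r} [Fact p.Prime] [CharP k p]

lemma f_mem_Dn {j : ℕ} {l : Fin r} (hl : l.val < j) (hJ : l ∉ S.J) : S.f l ∈ Dn S j :=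
  Submonoid.subset_closure (Or.inr ⟨l, hl, hJ, rfl⟩)

lemma Dn_mono {j j' : ℕ} (h : j ≤ j') : Dn S j ≤ Dn S j' := by
  refine Submonoid.closure_mono ?_
  rintro x (h1 | ⟨l, hl, hJ, rfl⟩)
  · exact Or.inl h1
  · exact Or.inr ⟨l, by omega, hJ, rfl⟩

lemma Dn_cut {j : Fin r} (hj : j ∈ S.J) : Dn S (j.val + 1) = Dn S j.val := by
  apply le_antisymm
  · refine Submonoid.closure_mono ?_
    rintro x (h1 | ⟨l, hl, hJ, rfl⟩)
    · exact Or.inl h1
    · refine Or.inr ⟨l, ?_, hJ, rfl⟩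
      have : l ≠ j := fun h => hJ (h ▸ hj)
      have := Fin.val_ne_of_ne this
      omega
  · exact Dn_mono (by omega)

lemma Dn_kept {j : Fin r} (hj : j ∉ S.J) : ∀ s ∈ Dn S (j.val + 1),
    ∃ t ∈ Dn S j.val, ∃ m : ℕ, s = t * S.f j ^ m := by
  intro s hs
  refine Submonoid.closure_induction (motive := fun s _ => ∃ t ∈ Dn S j.val, ∃ m : ℕ,
    s = t * S.f j ^ m) ?_ ?_ ?_ hs
  · rintro x (h1 | ⟨l, hl, hJ, rfl⟩)
    · exact ⟨x, Submonoid.subset_closure (Or.inl h1), 0, by rw [pow_zero, mul_one]⟩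
    · by_cases h2 : l = j
      · subst h2
        exact ⟨1, one_mem _, 1, by rw [pow_one, one_mul]⟩
      · have := Fin.val_ne_of_ne h2
        exact ⟨S.f l, f_mem_Dn (by omega) hJ, 0, by rw [pow_zero, mul_one]⟩
  · exact ⟨1, one_mem _, 0, by rw [pow_zero, mul_one]⟩
  · rintro x y _ _ ⟨t, ht, m, rfl⟩ ⟨t', ht', m', rfl⟩
    exact ⟨t * t', mul_mem ht ht', m + m', by rw [pow_add]; ring⟩

lemma gL_ne {L : Type u} [Field L] [Algebra k L] (ψ : MvPolynomial (Fin N) E →ₐ[k] L)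
    (h0 : ∀ t, S.h t ≠ 0) {j : ℕ} (h : ∀ s ∈ Dn S j, ψ s ≠ 0) (x) : gL S ψ j x ≠ 0 := by
  rcases x with t | s | l
  · exact h _ (Submonoid.subset_closure (Or.inl (Or.inl ⟨_, h0 t, rfl⟩)))
  · exact h _ (Submonoid.subset_closure (Or.inl (Or.inr ⟨s, rfl⟩)))
  · by_cases hl : l.val < j ∧ l ∉ S.J
    · have e1 : gL S ψ j (Sum.inr (Sum.inr l)) = ψ (S.f l) := if_pos hl
      rw [e1]
      exact h _ (f_mem_Dn hl.1 hl.2)
    · have e1 : gL S ψ j (Sum.inr (Sum.inr l)) = 1 := if_neg hl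
      rw [e1]
      exact one_ne_zero

lemma span_kept {j : Fin r} (hj : j ∉ S.J) :
    Ideal.span (S.f '' {l | l.val < j.val + 1 ∧ l ∈ S.J}) =
      Ideal.span (S.f '' {l | l.val < j.val ∧ l ∈ S.J}) := by
  congr 2
  ext l
  constructor
  · rintro ⟨h1, h2⟩
    have : l ≠ j := fun h => hj (h ▸ h2)
    have := Fin.val_ne_of_ne this
    exact ⟨by omega, h2⟩
  · rintro ⟨h1, h2⟩
    exact ⟨by omega, h2⟩

/-- The step for a function which is not an equation. -/
theorem inv_kept (hS : S.Ok) (hmono : S2_mono.{u}) {j : Fin r} (hj : j ∉ S.J)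
    (hinv : Inv k S j.val) : Inv k S (j.val + 1) := by
  classical
  intro L _ _ ψ hL hker hDn
  rw [span_kept hj] at hker
  obtain ⟨hst, hpr⟩ := hinv L ψ hL hker (fun s hs => hDn s (Dn_mono (Nat.le_succ _) hs))
  refine ⟨?_, fun b hb => hpr b fun q hq => hb q (by omega)⟩
  have hne : Nonempty (S.ι j) := ⟨S.i0 j⟩
  have hf0 : ψ (S.f j) ≠ 0 := hDn _ (f_mem_Dn (Nat.lt_succ_self _) hj)
  have h1 := add3_main k L _ (gL S ψ j) (QS ψ (Dn S j)) (DsL S ψ j) hst (S.ι j) (ej S j)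
    (fun _ => 1) (ψ (S.f j)) (fun _ => one_ne_zero) (psi_f hS ψ j) hf0 (sep_j hS ψ hL j hpr)
  have h2 := hmono k L _ (S.H ⊕ (S.Λ ⊕ Fin r)) _ _ (QS ψ (Dn S (j.val + 1))) _
    (DsL S ψ (j.val + 1)) h1
    (fun x o => if x = Sum.inr (Sum.inr j) then (if o = none then 1 else 0) else
      (if o = some x then 1 else 0)) ?_ ?_
  · convert h2 using 1
    funext x
    by_cases hx : x = Sum.inr (Sum.inr j)
    · rw [Finset.prod_eq_single none]
      · simp only [if_pos hx, if_true, zpow_one, Option.elim]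
        rw [hx]
        exact if_pos ⟨Nat.lt_succ_self _, hj⟩
      · intro o _ ho
        simp only [if_pos hx, if_neg ho, zpow_zero]
      · intro h; exact absurd (Finset.mem_univ _) h
    · rw [Finset.prod_eq_single (some x)]
      · simp only [if_neg hx, if_true, zpow_one, Option.elim]
        rcases x with t | s | l
        · rfl
        · rfl
        · have h3 : l ≠ j := fun h => hx (by rw [h])
          have h4 := Fin.val_ne_of_ne h3
          have h5 : (l.val < j.val + 1 ∧ l ∉ S.J) ↔ (l.val < j.val ∧ l ∉ S.J) := by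
            constructor
            · rintro ⟨h6, h7⟩; exact ⟨by omega, h7⟩
            · rintro ⟨h6, h7⟩; exact ⟨by omega, h7⟩
          change (if l.val < j.val + 1 ∧ l ∉ S.J then ψ (S.f l) else 1) =
            (if l.val < j.val ∧ l ∉ S.J then ψ (S.f l) else 1)
          simp only [h5]
      · intro o _ ho
        simp only [if_neg hx, if_neg ho, zpow_zero]
      · intro h; exact absurd (Finset.mem_univ _) h
  · exact QS_adj hf0 (Dn_kept hj) (Dn_mono (Nat.le_succ _)) (f_mem_Dn (Nat.lt_succ_self _) hj)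
  · rintro D ⟨b, hb, hD⟩
    refine ⟨⟨b, fun q hq => hb q (by omega), hD⟩, ?_⟩
    have h3 := (weights (k := k) hS b j.val j rfl (fun q hq => hb q (by
      have : q.1.val < j.val := hq
      omega))).2 (fun q hq => hb q (by rw [hq]; exact Nat.lt_succ_self _))
    exact ⟨_, by rw [hD, h3, map_smul]⟩

/-- Sums of monomials with separated weights are not zero. -/
lemma sum_ne_zero_of_sep {L : Type u} [Field L] [Algebra k L] {Ds : Set (Derivation k L L)}
    {ι : Type} [Fintype ι] [Nonempty ι] {m : ι → L} (hsep : SepD Ds m) (hm : ∀ i, m i ≠ 0) :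
    ∑ i, m i ≠ 0 := by
  classical
  intro h
  obtain ⟨i⟩ := ‹Nonempty ι›
  obtain ⟨D, -, l, h1, h2⟩ := hsep i
  have h3 : D (∑ i, m i) = l • ∑ i, m i + m i := by
    rw [map_sum, Finset.smul_sum, ← Finset.add_sum_erase _ _ (Finset.mem_univ i),
      ← Finset.add_sum_erase _ (fun i => l • m i) (Finset.mem_univ i), h1,
      Finset.sum_congr rfl fun j hj => h2 j (Finset.ne_of_mem_erase hj), add_smul, one_smul]
    ring
  rw [h, map_zero, smul_zero, zero_add] at h3
  exact hm i h3.symm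

/-- The step for an equation. -/
theorem inv_cut [PerfectField k] (hS : S.Ok)
    (hmono : S2_mono.{u}) (hcut : S2_cut2.{u}) {j : Fin r} (hj : j ∈ S.J)
    (hinv : Inv k S j.val) : Inv k S (j.val + 1) := by
  classical
  intro L' _ _ ψ' hL' hker' hDn'
  rw [Dn_cut hj] at hDn'
  have hkp : (RingHom.ker ψ'.toRingHom).IsPrime := RingHom.ker_isPrime _
  obtain ⟨P, hP, hPle⟩ := Ideal.exists_minimalPrimes_le
    (I := Ideal.span (S.f '' {l | l.val < j.val ∧ l ∈ S.J}))
    (J := RingHom.ker ψ'.toRingHom) ((Ideal.span_mono (Set.image_mono (by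
      rintro l ⟨h1, h2⟩
      exact ⟨by omega, h2⟩))).trans hker'.1.2)
  have hPp : P.IsPrime := hP.1.1
  let L := FractionRing (MvPolynomial (Fin N) E ⧸ P)
  let ψ : MvPolynomial (Fin N) E →ₐ[k] L :=
    (IsScalarTower.toAlgHom k (MvPolynomial (Fin N) E ⧸ P) L).comp (Ideal.Quotient.mkₐ k P)
  have hψ0 : ∀ a, ψ a = 0 ↔ a ∈ P := by
    intro a
    change algebraMap (MvPolynomial (Fin N) E ⧸ P) L (Ideal.Quotient.mk P a) = 0 ↔ _
    rw [FaithfulSMul.algebraMap_eq_zero_iff, Ideal.Quotient.eq_zero_iff_mem]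
  have hψker : RingHom.ker ψ.toRingHom = P := by
    ext a
    rw [RingHom.mem_ker]
    exact hψ0 a
  have hL : ∀ x : L, ∃ a b, ψ b ≠ 0 ∧ x * ψ b = ψ a := by
    intro x
    obtain ⟨a, b, hb, rfl⟩ := IsFractionRing.div_surjective
      (A := MvPolynomial (Fin N) E ⧸ P) x
    obtain ⟨a, rfl⟩ := Ideal.Quotient.mk_surjective a
    obtain ⟨b, rfl⟩ := Ideal.Quotient.mk_surjective b
    have hb0 : ψ b ≠ 0 := by
      rw [ne_eq, hψ0, ← Ideal.Quotient.eq_zero_iff_mem]
      exact nonZeroDivisors.ne_zero hb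
    exact ⟨a, b, hb0, div_mul_cancel₀ _ hb0⟩
  have hle : ∀ a, ψ a = 0 → ψ' a = 0 := fun a ha => RingHom.mem_ker.1 (hPle ((hψ0 a).1 ha))
  have hDn : ∀ s ∈ Dn S j, ψ s ≠ 0 := fun s hs h => hDn' s hs (hle s h)
  obtain ⟨hst, hpr⟩ := hinv L ψ hL (by rw [hψker]; exact hP) hDn
  obtain ⟨π, hπ⟩ := exists_pi ψ ψ' (Dn S j) hDn' hle
  have hne : Nonempty (S.ι j) := ⟨S.i0 j⟩
  have hsep := sep_j hS ψ hL j hpr
  have hg0 := gL_ne ψ hS.h0 hDn
  have hf0 : ψ (S.f j) ≠ 0 := by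
    rw [psi_f hS]
    simp only [one_smul]
    exact sum_ne_zero_of_sep hsep fun i => Finset.prod_ne_zero_iff.2 fun x _ =>
      zpow_ne_zero _ (hg0 x)
  have hfj : S.f j ∈ Ideal.span (S.f '' {l | l.val < j.val + 1 ∧ l ∈ S.J}) :=
    Ideal.subset_span ⟨j, ⟨Nat.lt_succ_self _, hj⟩, rfl⟩
  have hf' : ψ' (S.f j) = 0 := RingHom.mem_ker.1 (hker'.1.2 hfj)
  have hmin := pi_minimal hπ hDn' hle hf' (by
    intro q hq h1 h2 h3 a ha
    refine hker'.2 ⟨hq, ?_⟩ (fun a ha => RingHom.mem_ker.2 (h3 a ha)) (RingHom.mem_ker.2 ha)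
    rw [Ideal.span_le]
    rintro _ ⟨l, ⟨hl, hlJ⟩, rfl⟩
    by_cases hlj : l = j
    · rw [hlj]; exact h2
    · have := Fin.val_ne_of_ne hlj
      refine h1 _ ((hψ0 _).2 (hP.1.2 (Ideal.subset_span ⟨l, ⟨by omega, hlJ⟩, rfl⟩))))
  have hN : IsNoetherianRing (QS ψ (Dn S j)) := QS_noeth
  have hgen : ∀ x, ∀ h : gL S ψ j x ∈ QS ψ (Dn S j), gL S ψ' j x = π ⟨gL S ψ j x, h⟩ := by
    rintro (t | s | l) h
    · exact (pi_map hπ _).symm
    · exact (pi_map hπ _).symm
    · by_cases hl : l.val < j.val ∧ l ∉ S.J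
      · have e1 : gL S ψ' j (Sum.inr (Sum.inr l)) = ψ' (S.f l) := if_pos hl
        have e2 : (⟨gL S ψ j (Sum.inr (Sum.inr l)), h⟩ : QS ψ (Dn S j)) =
            ⟨ψ (S.f l), map_mem_QS _⟩ := Subtype.ext (if_pos hl)
        rw [e1, e2]
        exact (pi_map hπ _).symm
      · have e1 : gL S ψ' j (Sum.inr (Sum.inr l)) = 1 := if_neg hl
        have e2 : (⟨gL S ψ j (Sum.inr (Sum.inr l)), h⟩ : QS ψ (Dn S j)) = 1 :=
          Subtype.ext (if_neg hl)
        rw [e1, e2, map_one]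
  obtain ⟨hgen2, hst2⟩ := hcut k L L' _ (gL S ψ j) (QS ψ (Dn S j)) (DsL S ψ j) hst hN
    (QS_frac hL) (S.ι j) (ej S j) (fun _ => 1) ⟨ψ (S.f j), map_mem_QS _⟩
    (fun _ => one_ne_zero) (psi_f hS ψ j) hf0 hsep π hmin (by
      intro x
      obtain ⟨a, b, hb, h⟩ := hL' x
      exact ⟨⟨ψ a, map_mem_QS a⟩, ⟨ψ b, map_mem_QS b⟩, by rw [pi_map hπ]; exact hb, by
        rw [pi_map hπ, pi_map hπ]; exact h⟩) (gL S ψ' j) hgen
  have hχ : ∀ b : Fin n → ZMod p, (∀ q, q.1.val < j.val + 1 → TowerData.pr b (S.dv q) = 0) →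
      dl k S.blk b (S.f j) = ZMod.castHom (dvd_refl p) k (TowerData.pr b (S.deg j)) • S.f j := by
    intro b hb
    exact (weights (k := k) hS b j.val j rfl (fun q hq => hb q (by
      have : q.1.val < j.val := hq
      omega))).2 (fun q hq => hb q (by rw [hq]; exact Nat.lt_succ_self _))
  have hpr0 : ∀ b : Fin n → ZMod p, (∀ q, q.1.val < j.val + 1 →
      TowerData.pr b (S.dv q) = 0) → ∀ a, ψ a = 0 → ψ (dl k S.blk b a) = 0 := fun b hb =>
    hpr b fun q hq => hb q (by omega)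
  refine ⟨?_, ?_⟩
  · have h2 := hmono k L' _ (S.H ⊕ (S.Λ ⊕ Fin r)) _ _ (QS ψ' (Dn S (j.val + 1))) _
      (DsL S ψ' (j.val + 1)) hst2 (fun x y => if y = x then 1 else 0) ?_ ?_
    · convert h2 using 1
      funext x
      rw [Finset.prod_eq_single x]
      · simp only [if_true, zpow_one]
        rcases x with t | s | l
        · rfl
        · rfl
        · have h5 : (l.val < j.val + 1 ∧ l ∉ S.J) ↔ (l.val < j.val ∧ l ∉ S.J) := by
            constructor
            · rintro ⟨h6, h7⟩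
              have h3 : l ≠ j := fun h => h7 (h ▸ hj)
              have h4 := Fin.val_ne_of_ne h3
              exact ⟨by omega, h7⟩
            · rintro ⟨h6, h7⟩; exact ⟨by omega, h7⟩
          change (if l.val < j.val + 1 ∧ l ∉ S.J then ψ' (S.f l) else 1) =
            (if l.val < j.val ∧ l ∉ S.J then ψ' (S.f l) else 1)
          simp only [h5]
      · intro y _ hy
        simp only [if_neg hy, zpow_zero]
      · intro h; exact absurd (Finset.mem_univ _) h
    · rw [Dn_cut hj]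
      exact pi_range hπ hDn' hle
    · rintro D' ⟨b, hb, hD'⟩
      obtain ⟨D, hD⟩ := exists_der_L ψ hL (dl k S.blk b) (hpr0 b hb)
      refine ⟨D, ⟨b, fun q hq => hb q (by omega), hD⟩, ⟨_, by
        rw [hD, hχ b hb, map_smul]⟩, ?_⟩
      intro q h
      exact der_pi hπ hDn' hD hD' q h
  · intro b hb
    exact der_ker hπ hDn' hle (hpr0 b hb) (hχ b hb) hf' hgen2

end LData

end Pool.Agent.W418.LCI
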